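import Pool.Agent.W734.TWB.Main
import Pool.Agent.W440.TWB.B1C
import Pool.Agent.W705.TWB.Hardy
import Pool.Agent.W179.TWB.DY
import Pool.Agent.W561.TWB.DY3
import Pool.Agent.W827.TWB.Cov
import Pool.Agent.W827.TWB.Fub
import Pool.Agent.W486.TWB.H2
import Pool.Agent.W52.TWB.Poin
import Pool.Agent.W160.TWB.Pair
import Pool.Agent.W152.TWB.Trip
import Pool.Agent.W917.TWB.Regs
import Pool.Agent.W103.TWB.Vol
import Pool.Agent.W499.TWB.Fnl
import Pool.Agent.W395.TWB.Block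
import Pool.Agent.W891.TWB.Merge
import Pool.Agent.W891.TWB.Sumk
import Pool.Agent.W368.TWB.Num1
import Pool.Agent.W271.TWB.Riem
import Pool.Agent.W496.TWB.Core
import Pool.Agent.W119.TWB.SOB
import Pool.Agent.W821.TWB.Cvx
import Pool.Agent.W143.TWB.Cert
import Pool.Agent.W906.TWB.Trunc
import Pool.Agent.W805.TWB.Kern
import Pool.Agent.W153.TWB.KC1
import Pool.Agent.W3.TWB.GA
import Pool.Agent.W557.TWB.Form
import Pool.Agent.W563.TWB.Jp
import Pool.Agent.W912.TWB.FACT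
import Pool.Agent.W381.TWB.Low
import Pool.Agent.W74.TWB.Clamp
import Pool.Agent.W52.TWB.Tr1
import Pool.Agent.W999.TWB.Tr2
import Pool.Agent.W612.TWB.IndJab
import Pool.Agent.W991.TWB.Cl
import Pool.Agent.W397.TWB.Mass2
import Pool.Agent.W140.TWB.Mass3
import Pool.Agent.W162.TWB.Z
import Pool.Agent.W665.TWB.Err
import Pool.Agent.W724.TWB.Pwk
import Pool.Agent.W742.TWB.SYM
import Pool.Agent.W585.TWB.Uen
import Pool.Agent.W701.TWB.Up

set_option autoImplicit false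

namespace Pool.Agent.W734.TWB

theorem p_b1c : S_B1C := W440.TWB.b1c
theorem p_b2c : S_B2C := W440.TWB.b2c
theorem p_inv : S_INV := Pool.Agent.W705.TWB.inv
theorem p_hl : S_HL := Pool.Agent.W705.TWB.hl
theorem p_dy : S_DY := Pool.Agent.W179.TWB.dy p_b1c p_inv
theorem p_dy3 : S_DY3 := Pool.Agent.W561.TWB.dy3 p_b2c p_inv
theorem p_cov : S_COV := Pool.Agent.W827.TWB.cov
theorem p_fub : S_FUB := Pool.Agent.W827.TWB.fub
theorem p_h2 : S_H2 := Pool.Agent.W486.TWB.h2 p_inv p_cov p_fub p_hl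
theorem p_poin : S_POIN := Pool.Agent.W52.TWB.poin
theorem p_regs : S_REGS := Pool.Agent.W917.TWB.regs
theorem p_pair : S_PAIR := Pool.Agent.W160.TWB.Pair.pair p_inv p_cov p_fub p_h2 p_regs
theorem p_trip : S_TRIP := Pool.Agent.W152.TWB.trip p_inv p_cov p_fub p_h2 p_regs
theorem p_vol : S_VOL := Pool.Agent.W103.TWB.vol
theorem p_fnl : S_FNL :=
  Pool.Agent.W499.TWB.fnl p_dy p_dy3 p_pair p_trip p_regs p_vol p_h2 p_poin
theorem p_block : S_BLOCK := Pool.Agent.W395.TWB.block p_fnl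
theorem p_merge : S_MERGE := Pool.Agent.W891.TWB.merge
theorem p_sumk : S_SUMK := Pool.Agent.W891.TWB.sumk p_merge
theorem p_num1 : S_NUM1 := Pool.Agent.W368.TWB.num1
theorem p_riem : S_RIEM := Pool.Agent.W271.TWB.riem
theorem p_part : S_PART := Pool.Agent.W271.TWB.part
theorem p_core : S_CORE := Pool.Agent.W496.TWB.core p_block p_sumk p_part p_num1 p_riem
theorem p_sob : S_SOB := Pool.Agent.W119.TWB.sob
theorem p_cvx : S_CVX := Pool.Agent.W821.TWB.cvx
theorem p_cert : S_CERT := Pool.Agent.W143.TWB.cert p_sob p_cvx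
theorem p_trunc : S_TRUNC := Pool.Agent.W906.TWB.trunc
theorem p_kern : S_KERN := Pool.Agent.W805.TWB.kern
theorem p_kc1 : S_KC1 := Pool.Agent.W153.TWB.kc1
theorem p_y2 : S_Y2 := Pool.Agent.W153.TWB.y2
theorem p_g : S_G := Pool.Agent.W3.TWB.ga p_kern p_kc1 p_y2
theorem p_form : S_FORM := Pool.Agent.W557.TWB.form
theorem p_jp : S_JP := Pool.Agent.W563.TWB.Jp.jp p_g p_form
theorem p_clamp : S_CLAMP := Pool.Agent.W74.TWB.clamp
theorem p_tr1 : S_TR1 := Pool.Agent.W52.TWB.Tr1.tr1 p_clamp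
theorem p_tr2 : S_TR2 := Pool.Agent.W999.TWB.tr2 p_clamp
theorem p_ind : S_IND := Pool.Agent.W612.TWB.ind_jab.1
theorem p_jab : S_JAB := Pool.Agent.W612.TWB.ind_jab.2
theorem p_cl : S_CL := Pool.Agent.W991.TWB.cl p_ind p_jab
theorem p_mass2 : S_MASS2 := Pool.Agent.W397.TWB.mass2 p_ind p_jab
theorem p_mass3 : S_MASS3 := Pool.Agent.W140.TWB.mass3 p_ind p_jab
theorem p_z : S_Z := Pool.Agent.W162.TWB.z p_jab p_cl
theorem p_err : S_ERR := Pool.Agent.W665.TWB.err p_jab p_cl p_z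
theorem p_pwk : S_PWK := Pool.Agent.W724.TWB.pwk p_jab
theorem p_sym : S_SYM := Pool.Agent.W742.TWB.sym p_jab
theorem p_uen : S_UEN := Pool.Agent.W585.TWB.uen p_sym p_jab p_pwk p_err
theorem p_fact : S_FACT := Pool.Agent.W912.TWB.fact p_fub
theorem p_low : S_LOW := Pool.Agent.W381.TWB.low p_cert p_trunc p_jp p_fact p_core
theorem p_up : S_UP :=
  Pool.Agent.W701.TWB.up p_tr1 p_tr2 p_sym p_jab p_cl p_z p_uen p_mass2 p_mass3

end Pool.Agent.W734.TWB
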