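import Mathlib

/-!
# Gross-Pitaevskii limit with two- and three-body interactions (S15753): definitions
-/

set_option autoImplicit false

noncomputable section

namespace Pool.Agent.W734.TWB

open MeasureTheory Set Filter Metric

/-- three dimensional space -/
abbrev E3 := EuclideanSpace ℝ (Fin 3)

/-- configurations of `N` particles -/
abbrev Cfg (N : ℕ) := Fin N → E3

/-- basis vector -/
abbrev ee (k : Fin 3) : E3 := EuclideanSpace.single k (1 : ℝ)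

/-- `|∇u|²` -/
def g3 (u : E3 → ℂ) (x : E3) : ℝ := ∑ k : Fin 3, ‖fderiv ℝ u x (EuclideanSpace.single k (1 : ℝ))‖ ^ 2

/-- kinetic energy density of the three-body problem in relative coordinates -/
def g6 (φ : E3 × E3 → ℂ) (p : E3 × E3) : ℝ :=
  ∑ k : Fin 3, (‖fderiv ℝ φ p (EuclideanSpace.single k (1 : ℝ), 0)‖ ^ 2
    + ‖fderiv ℝ φ p (0, EuclideanSpace.single k (1 : ℝ))‖ ^ 2
    + ‖fderiv ℝ φ p (EuclideanSpace.single k (1 : ℝ), EuclideanSpace.single k (1 : ℝ))‖ ^ 2)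

/-- kinetic energy density of the particle `i` -/
def gsq {N : ℕ} (F : Cfg N → ℂ) (i : Fin N) (x : Cfg N) : ℝ :=
  ∑ k : Fin 3, ‖fderiv ℝ F x (Pi.single i (EuclideanSpace.single k (1 : ℝ)))‖ ^ 2

/-- kinetic energy density -/
def kin {N : ℕ} (F : Cfg N → ℂ) (x : Cfg N) : ℝ := ∑ i : Fin N, gsq F i x

/-- sum over pairs -/
def pairS {N : ℕ} (w : E3 → ℝ) (x : Cfg N) : ℝ :=
  ∑ i : Fin N, ∑ j ∈ Finset.Ioi i, w (x i - x j)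

/-- sum over triples -/
def tripS {N : ℕ} (v : E3 × E3 → ℝ) (x : Cfg N) : ℝ :=
  ∑ i : Fin N, ∑ j ∈ Finset.Ioi i, ∑ k ∈ Finset.Ioi j, v (x i - x j, x i - x k)

/-- scaled pair potential `N² W(N z)` -/
def Wn (N : ℕ) (W : E3 → ℝ) (z : E3) : ℝ := (N : ℝ) ^ 2 * W ((N : ℝ) • z)

/-- scaled three-body potential `N V(√N p)` -/
def Vn (N : ℕ) (V : E3 × E3 → ℝ) (p : E3 × E3) : ℝ := (N : ℝ) * V (Real.sqrt N • p)

/-- two-body scattering energy -/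
def b1 (W : E3 → ℝ) : ℝ :=
  sInf {B : ℝ | ∃ φ : E3 → ℂ, ContDiff ℝ ((⊤ : ℕ∞) : WithTop ℕ∞) φ ∧ HasCompactSupport φ ∧
    B = ∫ y, (2 * g3 φ y + W y * ‖1 - φ y‖ ^ 2)}

/-- three-body scattering energy -/
def b2 (V : E3 × E3 → ℝ) : ℝ :=
  sInf {B : ℝ | ∃ φ : E3 × E3 → ℂ, ContDiff ℝ ((⊤ : ℕ∞) : WithTop ℕ∞) φ ∧ HasCompactSupport φ ∧
    B = ∫ p, (g6 φ p + V p * ‖1 - φ p‖ ^ 2)}

/-- Gross-Pitaevskii energy of a function -/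
def gpJ (Vext : E3 → ℝ) (β γ : ℝ) (u : E3 → ℂ) : ℝ :=
  ∫ x, (g3 u x + Vext x * ‖u x‖ ^ 2 + β / 2 * ‖u x‖ ^ 4 + γ / 6 * ‖u x‖ ^ 6)

/-- Gross-Pitaevskii ground state energy -/
def gpE (Vext : E3 → ℝ) (β γ : ℝ) : ℝ :=
  sInf {E : ℝ | ∃ u : E3 → ℂ, ContDiff ℝ ((⊤ : ℕ∞) : WithTop ℕ∞) u ∧ HasCompactSupport u ∧
    ∫ x, ‖u x‖ ^ 2 = 1 ∧ E = gpJ Vext β γ u}

/-- energy of an `N`-body function -/
def enN (N : ℕ) (Vext W : E3 → ℝ) (V : E3 × E3 → ℝ) (ψ : Cfg N → ℂ) : ℝ :=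
  ∫ x, (kin ψ x + (∑ i : Fin N, Vext (x i)) * ‖ψ x‖ ^ 2 + pairS (Wn N W) x * ‖ψ x‖ ^ 2
    + tripS (Vn N V) x * ‖ψ x‖ ^ 2)

/-- bosonic ground state energy -/
def EN (N : ℕ) (Vext W : E3 → ℝ) (V : E3 × E3 → ℝ) : ℝ :=
  sInf {E : ℝ | ∃ ψ : Cfg N → ℂ, ContDiff ℝ ((⊤ : ℕ∞) : WithTop ℕ∞) ψ ∧ HasCompactSupport ψ ∧
    (∀ σ : Equiv.Perm (Fin N), ∀ x, ψ (x ∘ σ) = ψ x) ∧ ∫ x, ‖ψ x‖ ^ 2 = 1 ∧
    E = enN N Vext W V ψ}

/-- admissible external potentials -/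
structure AdmE (Vext : E3 → ℝ) : Prop where
  meas : Measurable Vext
  loc : ∀ K : Set E3, IsCompact K → ∃ M : ℝ, ∀ x ∈ K, |Vext x| ≤ M
  low : ∃ C α : ℝ, 0 < C ∧ 0 < α ∧ ∀ x, C * ‖x‖ ^ α ≤ Vext x

/-- admissible pair potentials -/
structure AdmW (W : E3 → ℝ) : Prop where
  meas : Measurable W
  even : ∀ x, W (-x) = W x
  nonneg : ∀ x, 0 ≤ W x
  bdd : ∃ M : ℝ, ∀ x, W x ≤ M
  supp : HasCompactSupport W

/-- admissible three-body potentials -/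
structure AdmV (V : E3 × E3 → ℝ) : Prop where
  meas : Measurable V
  nonneg : ∀ p, 0 ≤ V p
  bdd : ∃ M : ℝ, ∀ p, V p ≤ M
  supp : HasCompactSupport V
  symm : ∀ x y, V (x, y) = V (y, x)
  symm3 : ∀ x y z, V (x - y, x - z) = V (y - x, y - z) ∧ V (x - y, x - z) = V (z - y, z - x)

/-- the box with lower corner `a` and side `l`, for all `m` particles -/
def box (a : E3) (l : ℝ) (m : ℕ) : Set (Cfg m) := {x | ∀ i k, x i k ∈ Set.Ico (a k) (a k + l)}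

/-! ### regions for the fixed number lemma -/

/-- the particles `i, j` are close to each other, their centre of mass is inside, and all others
are far from it -/
def pairReg {n : ℕ} (τ ρ : ℝ) (i j : Fin n) : Set (Cfg n) :=
  {x | (∀ a, ((1 / 2 : ℝ) • (x i + x j)) a ∈ Set.Ico τ (1 - τ)) ∧ ‖x i - x j‖ < ρ ∧
    ∀ l, l ≠ i → l ≠ j → (∀ a, x l a ∈ Set.Ico (0 : ℝ) 1) ∧
      2 * τ ≤ ‖x l - (1 / 2 : ℝ) • (x i + x j)‖}

/-- the particles `i, j, k` are close to each other -/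
def tripReg {n : ℕ} (τ ρ : ℝ) (i j k : Fin n) : Set (Cfg n) :=
  {x | (∀ a, ((1 / 3 : ℝ) • (x i + x j + x k)) a ∈ Set.Ico τ (1 - τ)) ∧
    (x i - x j, x i - x k) ∈ Metric.ball (0 : E3 × E3) ρ ∧
    ∀ l, l ≠ i → l ≠ j → l ≠ k → (∀ a, x l a ∈ Set.Ico (0 : ℝ) 1) ∧
      2 * τ ≤ ‖x l - (1 / 3 : ℝ) • (x i + x j + x k)‖}

/-- in the slot `i` stands the centre of mass, in the slot `j` a free variable of the unit cube -/
def goodP {n : ℕ} (τ : ℝ) (i j : Fin n) : Set (Cfg n) :=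
  {x | (∀ a, x i a ∈ Set.Ico τ (1 - τ)) ∧ (∀ a, x j a ∈ Set.Ico (0 : ℝ) 1) ∧
    ∀ l, l ≠ i → l ≠ j → (∀ a, x l a ∈ Set.Ico (0 : ℝ) 1) ∧ 2 * τ ≤ ‖x l - x i‖}

/-- the same for triples -/
def goodT {n : ℕ} (τ : ℝ) (i j k : Fin n) : Set (Cfg n) :=
  {x | (∀ a, x i a ∈ Set.Ico τ (1 - τ)) ∧ (∀ a, x j a ∈ Set.Ico (0 : ℝ) 1) ∧
    (∀ a, x k a ∈ Set.Ico (0 : ℝ) 1) ∧
    ∀ l, l ≠ i → l ≠ j → l ≠ k → (∀ a, x l a ∈ Set.Ico (0 : ℝ) 1) ∧ 2 * τ ≤ ‖x l - x i‖}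

/-- region where Hardy's inequality for the pair `i, j` is used -/
def nearD {n : ℕ} (τ : ℝ) (i j : Fin n) : Set (Cfg n) :=
  {x | x ∈ box 0 1 n ∧ (∀ a, ((1 / 2 : ℝ) • (x i + x j)) a ∈ Set.Ico (τ / 2) (1 - τ / 2)) ∧
    ‖x i - x j‖ < τ / 4}

/-! ### boxes -/

/-- the weight `∏ φ(x_i)²` -/
def wt {m : ℕ} (φ : E3 → ℝ) (x : Cfg m) : ℝ := ∏ i, φ (x i) ^ 2

/-- side of the small boxes, `N ℓ³ = n₀` -/
def ell (n0 : ℝ) (N : ℕ) : ℝ := (n0 / N) ^ (1 / 3 : ℝ)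

/-- energy of `m` particles in a small box -/
def hh (β γ n0 : ℝ) (m : ℕ) : ℝ := (m.choose 2 : ℝ) * β / n0 + (m.choose 3 : ℝ) * γ / n0 ^ 2

/-- superadditive continuation beyond `p` -/
def HH (A : ℕ → ℝ) (p n : ℕ) : ℝ := if n ≤ p then A n else ((n / p : ℕ) : ℝ) * A p

/-- `β ρ + (γ/2) ρ²` -/
def UU (β γ ρ : ℝ) : ℝ := β * ρ + γ / 2 * ρ ^ 2

/-- `(β/2) ρ² + (γ/3) ρ³` -/
def dd (β γ ρ : ℝ) : ℝ := β / 2 * ρ ^ 2 + γ / 3 * ρ ^ 3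

/-- lower corner of the small box with index `α` -/
def corner (l : ℝ) (α : Fin 3 → ℤ) : E3 := WithLp.toLp 2 (fun a => l * (α a : ℝ))

/-- the region where the particle `i` is in the small box with index `k i` -/
def reg {N : ℕ} (l : ℝ) (k : Fin N → (Fin 3 → ℤ)) : Set (Cfg N) :=
  {x | ∀ i a, x i a ∈ Set.Ico (l * (k i a : ℝ)) (l * (k i a : ℝ) + l)}

/-- kinetic energy of the particles in `J` -/
def kinJ {N : ℕ} (J : Finset (Fin N)) (F : Cfg N → ℂ) (x : Cfg N) : ℝ := ∑ i ∈ J, gsq F i x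

/-- pairs in `J` -/
def pairJ {N : ℕ} (J : Finset (Fin N)) (w : E3 → ℝ) (x : Cfg N) : ℝ :=
  ∑ i ∈ J, ∑ j ∈ J.filter (fun j => i < j), w (x i - x j)

/-- triples in `J` -/
def tripJ {N : ℕ} (J : Finset (Fin N)) (v : E3 × E3 → ℝ) (x : Cfg N) : ℝ :=
  ∑ i ∈ J, ∑ j ∈ J.filter (fun j => i < j), ∑ k ∈ J.filter (fun k => j < k),
    v (x i - x j, x i - x k)

/-! ### resolvent -/

/-- bounded measurable square integrable functions -/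
structure Nice (h : E3 → ℝ) : Prop where
  meas : Measurable h
  bdd : ∃ B : ℝ, ∀ x, |h x| ≤ B
  sq : Integrable (fun x => h x ^ 2)

/-- `∇f · ∇g` for real functions -/
def dot3 (f g : E3 → ℝ) (x : E3) : ℝ :=
  ∑ k : Fin 3, fderiv ℝ f x (EuclideanSpace.single k (1 : ℝ))
    * fderiv ℝ g x (EuclideanSpace.single k (1 : ℝ))

/-- `G` is (an extension of) the operator `(κ - Δ)⁻¹` -/
structure IsRes (κ : ℝ) (G : (E3 → ℝ) → (E3 → ℝ)) : Prop where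
  diff : ∀ h, Nice h → ContDiff ℝ 1 (G h)
  nice : ∀ h, Nice h → Nice (G h)
  gsq : ∀ h, Nice h → Integrable (fun x => dot3 (G h) (G h) x)
  mono : ∀ h h', Nice h → Nice h' → (∀ x, h x ≤ h' x) → ∀ x, G h x ≤ G h' x
  zero : ∀ x, G (fun _ => 0) x = 0
  pos : ∀ h, Nice h → (∀ x, 0 < h x) → ∀ x, 0 < G h x
  weak : ∀ h, Nice h → ∀ η : E3 → ℝ, ContDiff ℝ 1 η → HasCompactSupport η →
    ∫ x, (dot3 (G h) η x + κ * G h x * η x) = ∫ x, h x * η x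
  energy : ∀ h, Nice h → ∫ x, (dot3 (G h) (G h) x + κ * G h x ^ 2) = ∫ x, h x * G h x
  sup : ∃ C : ℝ, 0 ≤ C ∧ ∀ h, Nice h → ∀ x, |G h x| ≤ C * Real.sqrt (∫ y, h y ^ 2)
  conv : ∀ (hn : ℕ → E3 → ℝ) (h : E3 → ℝ), (∀ n, Nice (hn n)) → Nice h →
    (∀ n x, 0 ≤ hn n x) → (∀ n x, hn n x ≤ h x) →
    (∀ x, Tendsto (fun n => hn n x) atTop (nhds (h x))) →
    ∀ x, Tendsto (fun n => G (hn n) x) atTop (nhds (G h x))

/-- `φ` is a supersolution of `-Δφ + Qφ = λφ` -/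
def SuperSol (Q : E3 → ℝ) (lam : ℝ) (φ : E3 → ℝ) : Prop :=
  ∀ η : E3 → ℝ, ContDiff ℝ 1 η → HasCompactSupport η → (∀ x, 0 ≤ η x) →
    lam * ∫ x, φ x * η x ≤ ∫ x, (dot3 φ η x + Q x * φ x * η x)

/-- lower bound `lam` for the operator `-Δ + Q` -/
def FormLow (Q : E3 → ℝ) (lam : ℝ) : Prop :=
  ∀ u : E3 → ℂ, ContDiff ℝ ((⊤ : ℕ∞) : WithTop ℕ∞) u → HasCompactSupport u →
    lam * ∫ x, ‖u x‖ ^ 2 ≤ ∫ x, (g3 u x + Q x * ‖u x‖ ^ 2)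

/-! ### trial functions for the upper bound -/

/-- `|∇f|²` for real functions -/
def g3r (f : E3 → ℝ) (x : E3) : ℝ := ∑ k : Fin 3, (fderiv ℝ f x (EuclideanSpace.single k (1 : ℝ))) ^ 2

/-- `g6` for real functions -/
def g6r (f : E3 × E3 → ℝ) (p : E3 × E3) : ℝ :=
  ∑ k : Fin 3, ((fderiv ℝ f p (EuclideanSpace.single k (1 : ℝ), 0)) ^ 2
    + (fderiv ℝ f p (0, EuclideanSpace.single k (1 : ℝ))) ^ 2
    + (fderiv ℝ f p (EuclideanSpace.single k (1 : ℝ), EuclideanSpace.single k (1 : ℝ))) ^ 2)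

/-- pair correlation functions -/
structure PairF (R : ℝ) (f : E3 → ℝ) : Prop where
  diff : ContDiff ℝ ((⊤ : ℕ∞) : WithTop ℕ∞) f
  nonneg : ∀ x, 0 ≤ f x
  le_one : ∀ x, f x ≤ 1
  even : ∀ x, f (-x) = f x
  one : ∀ x, R ≤ ‖x‖ → f x = 1

/-- three-body correlation functions -/
structure TripF (R : ℝ) (f : E3 × E3 → ℝ) : Prop where
  diff : ContDiff ℝ ((⊤ : ℕ∞) : WithTop ℕ∞) f
  nonneg : ∀ p, 0 ≤ f p
  le_one : ∀ p, f p ≤ 1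
  symm : ∀ x y, f (x, y) = f (y, x)
  symm3 : ∀ x y z, f (x - y, x - z) = f (y - x, y - z)
  one : ∀ p, R ≤ ‖p‖ → f p = 1

/-- Jastrow factor of the particles in `A` -/
def JA {N : ℕ} (f1 : E3 → ℝ) (f2 : E3 × E3 → ℝ) (A : Finset (Fin N)) (x : Cfg N) : ℝ :=
  (∏ i ∈ A, ∏ j ∈ A.filter (fun j => i < j), f1 ((N : ℝ) • (x i - x j))) *
  ∏ i ∈ A, ∏ j ∈ A.filter (fun j => i < j), ∏ k ∈ A.filter (fun k => j < k),
    f2 (Real.sqrt N • (x i - x j, x i - x k))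

/-- `∏ |u(x_i)|²` -/
def wu {N : ℕ} (u : E3 → ℂ) (x : Cfg N) : ℝ := ∏ i, ‖u (x i)‖ ^ 2

/-- norm square of the Jastrow factor of `A` for independent particles -/
def ZA {N : ℕ} (f1 : E3 → ℝ) (f2 : E3 × E3 → ℝ) (u : E3 → ℂ) (A : Finset (Fin N)) : ℝ :=
  ∫ x : Cfg N, wu u x * (JA f1 f2 A x) ^ 2

/-- trial function -/
def Psi (N : ℕ) (f1 : E3 → ℝ) (f2 : E3 × E3 → ℝ) (u : E3 → ℂ) (x : Cfg N) : ℂ :=
  (∏ i, u (x i)) * ((JA f1 f2 Finset.univ x : ℝ) : ℂ)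

/-- smooth, compactly supported, normalised -/
structure Orb (u : E3 → ℂ) : Prop where
  diff : ContDiff ℝ ((⊤ : ℕ∞) : WithTop ℕ∞) u
  supp : HasCompactSupport u
  norm : ∫ x, ‖u x‖ ^ 2 = 1

end Pool.Agent.W734.TWB
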