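import Pool.Agent.W734.TWB.Stms

set_option autoImplicit false

noncomputable section

namespace Pool.Agent.W734.TWB

open MeasureTheory Set Filter Metric

theorem main_lim (hL : S_LOW) (hU : S_UP) (Vext W : E3 → ℝ) (V : E3 × E3 → ℝ)
    (hE : AdmE Vext) (hW : AdmW W) (hV : AdmV V) :
    Tendsto (fun N : ℕ => EN N Vext W V / N) atTop (nhds (gpE Vext (b1 W) (b2 V))) := by
  rw [Metric.tendsto_atTop']
  intro ε hε
  have h1 := hL Vext W V hE hW hV (ε / 2) (by positivity)
  have h2 := hU Vext W V hE hW hV (ε / 2) (by positivity)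
  obtain ⟨N1, h1⟩ := eventually_atTop.1 h1
  obtain ⟨N2, h2⟩ := eventually_atTop.1 h2
  refine ⟨max N1 N2, fun n hn => ?_⟩
  have a := h1 n (le_trans (le_max_left _ _) hn.le)
  have b := h2 n (le_trans (le_max_right _ _) hn.le)
  rw [Real.dist_eq, abs_lt]
  constructor <;> linarith

end Pool.Agent.W734.TWB
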