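import Pool.Agent.W734.TWB.Defs

/-!
# Gross-Pitaevskii limit with two- and three-body interactions (S15753): statements of the parts
-/

set_option autoImplicit false

noncomputable section

namespace Pool.Agent.W734.TWB

open MeasureTheory Set Filter Metric

/-! ### scattering energies -/

/-- the variational bound holds for `C¹` functions -/
def S_B1C : Prop := ∀ W : E3 → ℝ, AdmW W → ∀ φ : E3 → ℂ, ContDiff ℝ 1 φ → HasCompactSupport φ →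
  b1 W ≤ ∫ y, (2 * g3 φ y + W y * ‖1 - φ y‖ ^ 2)

def S_B2C : Prop := ∀ V : E3 × E3 → ℝ, AdmV V → ∀ φ : E3 × E3 → ℂ, ContDiff ℝ 1 φ →
  HasCompactSupport φ → b2 V ≤ ∫ p, (g6 φ p + V p * ‖1 - φ p‖ ^ 2)

/-- local integrability of `|x|⁻²` -/
def S_INV : Prop := (∀ R : ℝ, IntegrableOn (fun x : E3 => (‖x‖ ^ 2)⁻¹) (ball 0 R)) ∧
  ∀ R : ℝ, IntegrableOn (fun p : E3 × E3 => (‖p.1‖ ^ 2)⁻¹) (ball 0 R)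

/-- Dyson type lemma for pairs -/
def S_DY : Prop := ∀ W : E3 → ℝ, AdmW W → ∀ δ : ℝ, 0 < δ → δ < 1 → ∃ R : ℝ, 0 < R ∧
  ∀ s : ℝ, 0 < s → ∀ u : E3 → ℂ, ContDiff ℝ 1 u → ∀ c : ℂ,
    (1 - δ) * (b1 W / s) * ‖c‖ ^ 2 ≤
      (∫ x in ball (0 : E3) (R / s), (2 * g3 u x + s ^ 2 * W (s • x) * ‖u x‖ ^ 2))
      + δ * ∫ x in ball (0 : E3) (R / s), ‖u x - c‖ ^ 2 / ‖x‖ ^ 2

/-- Dyson type lemma for triples -/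
def S_DY3 : Prop := ∀ V : E3 × E3 → ℝ, AdmV V → ∀ δ : ℝ, 0 < δ → δ < 1 → ∃ R : ℝ, 0 < R ∧
  ∀ r : ℝ, 0 < r → ∀ G : E3 × E3 → ℂ, ContDiff ℝ 1 G → ∀ c : ℂ,
    (1 - δ) * (b2 V / r ^ 4) * ‖c‖ ^ 2 ≤
      (∫ p in ball (0 : E3 × E3) (R / r), (g6 G p + r ^ 2 * V (r • p) * ‖G p‖ ^ 2))
      + δ * ∫ p in ball (0 : E3 × E3) (R / r), ‖G p - c‖ ^ 2 / ‖p.1‖ ^ 2

/-- localised Hardy inequality -/
def S_HL : Prop := ∀ τ : ℝ, 0 < τ → ∃ C : ℝ, 0 ≤ C ∧ ∀ u : E3 → ℂ, ContDiff ℝ 1 u →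
  ∫ x in ball (0 : E3) (τ / 2), ‖u x‖ ^ 2 / ‖x‖ ^ 2 ≤
    8 * (∫ x in ball (0 : E3) τ, g3 u x) + C * ∫ x in ball (0 : E3) τ, ‖u x‖ ^ 2

/-! ### a fixed number of particles in the unit box -/

def S_H2 : Prop := ∀ (n : ℕ) (τ : ℝ), 0 < τ → ∃ C : ℝ, 0 ≤ C ∧ ∀ i j : Fin n, i ≠ j →
  ∀ F : Cfg n → ℂ, ContDiff ℝ 1 F → ∀ c : ℂ,
    IntegrableOn (fun x => ‖F x - c‖ ^ 2 / ‖x i - x j‖ ^ 2) (nearD τ i j) ∧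
    ∫ x in nearD τ i j, ‖F x - c‖ ^ 2 / ‖x i - x j‖ ^ 2 ≤
      C * ((∫ x in box 0 1 n, kin F x) + ∫ x in box 0 1 n, ‖F x - c‖ ^ 2)

def S_POIN : Prop := ∀ n : ℕ, ∃ C : ℝ, 0 < C ∧ ∀ F : Cfg n → ℂ, ContDiff ℝ 1 F →
  (∫ x in box 0 1 n, ‖F x - ∫ y in box 0 1 n, F y‖ ^ 2) ≤ C * (∫ x in box 0 1 n, kin F x) ∧
  (∫ x in box 0 1 n, ‖F x‖ ^ 2) = ‖∫ y in box 0 1 n, F y‖ ^ 2
    + ∫ x in box 0 1 n, ‖F x - ∫ y in box 0 1 n, F y‖ ^ 2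

/-- from the fibre inequality to the inequality on `pairReg` -/
def S_PAIR : Prop := ∀ w : E3 → ℝ, Measurable w → (∀ y, 0 ≤ w y) → (∃ M : ℝ, ∀ y, w y ≤ M) →
  ∀ A δ ρ : ℝ, 0 ≤ A → 0 ≤ δ → 0 < ρ →
  (∀ u : E3 → ℂ, ContDiff ℝ 1 u → ∀ c : ℂ, A * ‖c‖ ^ 2 ≤
      (∫ y in ball (0 : E3) ρ, (2 * g3 u y + w y * ‖u y‖ ^ 2))
      + δ * ∫ y in ball (0 : E3) ρ, ‖u y - c‖ ^ 2 / ‖y‖ ^ 2) →
  ∀ (n : ℕ) (τ : ℝ), 0 < τ → ρ ≤ τ / 4 → ∀ i j : Fin n, i ≠ j →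
  ∀ F : Cfg n → ℂ, ContDiff ℝ 1 F → ∀ c : ℂ,
    A * ‖c‖ ^ 2 * (volume (goodP (n := n) τ i j)).toReal ≤
      (∫ x in pairReg τ ρ i j, (gsq F i x + gsq F j x + w (x i - x j) * ‖F x‖ ^ 2))
      + δ * ∫ x in pairReg τ ρ i j, ‖F x - c‖ ^ 2 / ‖x i - x j‖ ^ 2

/-- from the fibre inequality to the inequality on `tripReg` -/
def S_TRIP : Prop := ∀ v : E3 × E3 → ℝ, Measurable v → (∀ p, 0 ≤ v p) →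
  (∃ M : ℝ, ∀ p, v p ≤ M) → ∀ A δ ρ : ℝ, 0 ≤ A → 0 ≤ δ → 0 < ρ →
  (∀ G : E3 × E3 → ℂ, ContDiff ℝ 1 G → ∀ c : ℂ, A * ‖c‖ ^ 2 ≤
      (∫ p in ball (0 : E3 × E3) ρ, (g6 G p + v p * ‖G p‖ ^ 2))
      + δ * ∫ p in ball (0 : E3 × E3) ρ, ‖G p - c‖ ^ 2 / ‖p.1‖ ^ 2) →
  ∀ (n : ℕ) (τ : ℝ), 0 < τ → ρ ≤ τ / 4 → ∀ i j k : Fin n, i ≠ j → i ≠ k → j ≠ k →
  ∀ F : Cfg n → ℂ, ContDiff ℝ 1 F → ∀ c : ℂ,
    A * ‖c‖ ^ 2 * (volume (goodT (n := n) τ i j k)).toReal ≤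
      (∫ x in tripReg τ ρ i j k, (gsq F i x + gsq F j x + gsq F k x
        + v (x i - x j, x i - x k) * ‖F x‖ ^ 2))
      + δ * ∫ x in tripReg τ ρ i j k, ‖F x - c‖ ^ 2 / ‖x i - x j‖ ^ 2

/-- geometry of the regions -/
def S_REGS : Prop := ∀ (n : ℕ) (τ ρ ρ' : ℝ), 0 < τ → ρ ≤ τ / 4 → ρ' ≤ τ / 4 →
  (∀ i j : Fin n, MeasurableSet (pairReg (n := n) τ ρ i j)) ∧
  (∀ i j k : Fin n, MeasurableSet (tripReg (n := n) τ ρ' i j k)) ∧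
  (∀ i j : Fin n, MeasurableSet (nearD (n := n) τ i j)) ∧
  (∀ i j : Fin n, i ≠ j → pairReg (n := n) τ ρ i j ⊆ nearD τ i j) ∧
  (∀ i j k : Fin n, i ≠ j → i ≠ k → j ≠ k → tripReg (n := n) τ ρ' i j k ⊆ nearD τ i j) ∧
  (∀ q : Fin n → ℝ, (∀ i, 0 ≤ q i) → ∀ x : Cfg n,
    (∑ i : Fin n, ∑ j ∈ Finset.Ioi i, (pairReg τ ρ i j).indicator (fun _ => q i + q j) x)
    + (∑ i : Fin n, ∑ j ∈ Finset.Ioi i, ∑ k ∈ Finset.Ioi j,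
        (tripReg τ ρ' i j k).indicator (fun _ => q i + q j + q k) x) ≤ ∑ i : Fin n, q i)

def S_VOL : Prop := ∀ (n : ℕ) (κ : ℝ), 0 < κ → ∃ τ : ℝ, 0 < τ ∧ τ < 1 / 2 ∧
  (∀ i j : Fin n, i ≠ j → 1 - κ ≤ (volume (goodP (n := n) τ i j)).toReal) ∧
  ∀ i j k : Fin n, i ≠ j → i ≠ k → j ≠ k → 1 - κ ≤ (volume (goodT (n := n) τ i j k)).toReal

/-- a fixed number of particles in the unit box -/
def S_FNL : Prop := ∀ (W : E3 → ℝ) (V : E3 × E3 → ℝ), AdmW W → AdmV V → ∀ (n : ℕ) (η : ℝ),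
  0 < η → ∃ s0 : ℝ, 0 < s0 ∧ ∀ s r : ℝ, s0 ≤ s → s0 ≤ r → ∀ F : Cfg n → ℂ, ContDiff ℝ 1 F →
    (1 - η) * ((n.choose 2 : ℝ) * b1 W / s + (n.choose 3 : ℝ) * b2 V / r ^ 4)
        * (∫ x in box 0 1 n, ‖F x‖ ^ 2) ≤
      ∫ x in box 0 1 n, (kin F x + (pairS (fun z => s ^ 2 * W (s • z)) x
        + tripS (fun p => r ^ 2 * V (r • p)) x) * ‖F x‖ ^ 2)

/-! ### small boxes -/

/-- lower bound `A` for the energy of `m` particles in a box -/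
def BoxIneq (φ : E3 → ℝ) (w : E3 → ℝ) (v : E3 × E3 → ℝ) (a : E3) (l : ℝ) (m : ℕ) (A : ℝ) :
    Prop :=
  ∀ F : Cfg m → ℂ, ContDiff ℝ 1 F → A * (∫ x in box a l m, wt φ x * ‖F x‖ ^ 2) ≤
    ∫ x in box a l m, wt φ x * (kin F x + (pairS w x + tripS v x) * ‖F x‖ ^ 2)

def S_BLOCK : Prop := ∀ (W : E3 → ℝ) (V : E3 × E3 → ℝ), AdmW W → AdmV V →
  ∀ φ : E3 → ℝ, Continuous φ → (∀ x, 0 < φ x) →
  ∀ (M : ℝ) (p : ℕ) (n0 η : ℝ), 0 < n0 → 0 < η → ∀ᶠ N : ℕ in atTop, ∀ a : E3, ‖a‖ ≤ M →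
    ∀ m : ℕ, m ≤ p →
      BoxIneq φ (Wn N W) (Vn N V) a (ell n0 N) m ((1 - η) * hh (b1 W) (b2 V) n0 m)

/-- nonnegative bounded measurable potentials -/
structure PotOK (w : E3 → ℝ) (v : E3 × E3 → ℝ) : Prop where
  mw : Measurable w
  mv : Measurable v
  nw : ∀ x, 0 ≤ w x
  nv : ∀ p, 0 ≤ v p
  bw : ∃ M : ℝ, ∀ x, w x ≤ M
  bv : ∃ M : ℝ, ∀ p, v p ≤ M

def S_MERGE : Prop := ∀ φ : E3 → ℝ, Continuous φ → (∀ x, 0 < φ x) →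
  ∀ (w : E3 → ℝ) (v : E3 × E3 → ℝ), PotOK w v → ∀ l : ℝ, 0 < l →
  ∀ (α : Fin 3 → ℤ) (m : ℕ) (A : ℝ), BoxIneq φ w v (corner l α) l m A →
  ∀ (N : ℕ) (J : Finset (Fin N)), J.card = m → ∀ k : Fin N → (Fin 3 → ℤ), (∀ i ∈ J, k i = α) →
  ∀ F : Cfg N → ℂ, ContDiff ℝ 1 F →
    A * (∫ x in reg l k, wt φ x * ‖F x‖ ^ 2) ≤
      ∫ x in reg l k, wt φ x * (kinJ J F x + (pairJ J w x + tripJ J v x) * ‖F x‖ ^ 2)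

def S_SUMK : Prop := ∀ φ : E3 → ℝ, Continuous φ → (∀ x, 0 < φ x) →
  ∀ (w : E3 → ℝ) (v : E3 × E3 → ℝ), PotOK w v → ∀ l : ℝ, 0 < l →
  ∀ p : ℕ, 1 ≤ p → ∀ (A : ℕ → ℝ) (𝒜 : Finset (Fin 3 → ℤ)), (∀ m ≤ p, 0 ≤ A m) →
  (∀ α ∈ 𝒜, ∀ m ≤ p, BoxIneq φ w v (corner l α) l m (A m)) →
  ∀ (N : ℕ) (k : Fin N → (Fin 3 → ℤ)) (F : Cfg N → ℂ), ContDiff ℝ 1 F →
   (∑ α ∈ 𝒜, HH A p (Finset.univ.filter (fun i => k i = α)).card)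
      * (∫ x in reg l k, wt φ x * ‖F x‖ ^ 2) ≤
     ∫ x in reg l k, wt φ x * (kin F x + (pairS w x + tripS v x) * ‖F x‖ ^ 2)

def S_PART : Prop := ∀ l : ℝ, 0 < l → ∀ (N : ℕ) (f g : Cfg N → ℝ), Integrable f → Integrable g →
  (∀ k : Fin N → (Fin 3 → ℤ), ∫ x in reg l k, f x ≤ ∫ x in reg l k, g x) →
  ∫ x, f x ≤ ∫ x, g x

def S_NUM1 : Prop := ∀ β γ ρm ε : ℝ, 0 ≤ β → 0 ≤ γ → 0 ≤ ρm → 0 < ε →
  ∃ (n0 : ℝ) (p : ℕ) (η : ℝ), 0 < n0 ∧ 1 ≤ p ∧ 0 < η ∧ η < 1 ∧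
  ∀ ρ : ℝ, 0 ≤ ρ → ρ ≤ ρm → ∀ n : ℕ,
    (n : ℝ) * UU β γ ρ - n0 * dd β γ ρ - ε * n0 ≤ HH (fun m => (1 - η) * hh β γ n0 m) p n

def S_RIEM : Prop := ∀ β γ : ℝ, 0 ≤ β → 0 ≤ γ → ∀ ρ : E3 → ℝ, Continuous ρ →
  HasCompactSupport ρ → (∀ x, 0 ≤ ρ x) →
  ∃ M ρm : ℝ, 0 ≤ M ∧ 0 ≤ ρm ∧ ∀ ε : ℝ, 0 < ε → ∃ l0 : ℝ, 0 < l0 ∧ ∀ l : ℝ, 0 < l → l < l0 →
   ∃ (𝒜 : Finset (Fin 3 → ℤ)) (ρh : (Fin 3 → ℤ) → ℝ),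
     (∀ α, 0 ≤ ρh α) ∧ (∀ α, ρh α ≤ ρm) ∧ (∀ α, α ∉ 𝒜 → ρh α = 0) ∧
     (∀ α ∈ 𝒜, ‖corner l α‖ ≤ M) ∧
     (∀ (α : Fin 3 → ℤ) (x : E3), (∀ a, x a ∈ Set.Ico (l * (α a : ℝ)) (l * (α a : ℝ) + l)) →
        ρ x ≤ ρh α) ∧
     (∑ α ∈ 𝒜, l ^ 3 * dd β γ (ρh α)) ≤ (∫ x, dd β γ (ρ x)) + ε ∧
     (𝒜.card : ℝ) * l ^ 3 ≤ M

/-- lower bound for the weighted energy -/
def S_CORE : Prop := ∀ (W : E3 → ℝ) (V : E3 × E3 → ℝ), AdmW W → AdmV V →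
  ∀ φ : E3 → ℝ, Continuous φ → (∀ x, 0 < φ x) →
  ∀ ρ : E3 → ℝ, Continuous ρ → HasCompactSupport ρ → (∀ x, 0 ≤ ρ x) → ∀ ε : ℝ, 0 < ε →
  ∀ᶠ N : ℕ in atTop, ∀ F : Cfg N → ℂ, ContDiff ℝ 1 F → HasCompactSupport F →
   (∫ x, (∑ i, UU (b1 W) (b2 V) (ρ (x i))) * (wt φ x * ‖F x‖ ^ 2))
     - (N : ℝ) * ((∫ x, dd (b1 W) (b2 V) (ρ x)) + ε) * (∫ x, wt φ x * ‖F x‖ ^ 2) ≤
    ∫ x, wt φ x * (kin F x + (pairS (Wn N W) x + tripS (Vn N V) x) * ‖F x‖ ^ 2)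

/-! ### the dual certificate -/

def S_SOB : Prop := ∃ C : ℝ, 0 ≤ C ∧ ∀ u : E3 → ℂ, ContDiff ℝ ((⊤ : ℕ∞) : WithTop ℕ∞) u →
  HasCompactSupport u → ∫ x, ‖u x‖ ^ 6 ≤ C * (∫ x, g3 u x) ^ 3

def S_CVX : Prop := ∀ Vext : E3 → ℝ, AdmE Vext → ∀ β γ : ℝ, 0 ≤ β → 0 ≤ γ →
  ∀ u0 u : E3 → ℂ, Orb u0 → Orb u → ∀ t : ℝ, 0 ≤ t → t ≤ 1 →
  gpE Vext β γ ≤ (1 - t) * (∫ x, (g3 u0 x + Vext x * ‖u0 x‖ ^ 2))
    + t * (∫ x, (g3 u x + Vext x * ‖u x‖ ^ 2))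
    + ∫ x, (β / 2 * ((1 - t) * ‖u0 x‖ ^ 2 + t * ‖u x‖ ^ 2) ^ 2
      + γ / 6 * ((1 - t) * ‖u0 x‖ ^ 2 + t * ‖u x‖ ^ 2) ^ 3)

def S_CERT : Prop := ∀ Vext : E3 → ℝ, AdmE Vext → ∀ β γ : ℝ, 0 ≤ β → 0 ≤ γ → ∀ ε : ℝ, 0 < ε →
  ∃ ρ : E3 → ℝ, Continuous ρ ∧ HasCompactSupport ρ ∧ (∀ x, 0 ≤ ρ x) ∧
    FormLow (fun x => Vext x + UU β γ (ρ x)) (gpE Vext β γ + (∫ x, dd β γ (ρ x)) - ε)

def S_TRUNC : Prop := ∀ Vext : E3 → ℝ, AdmE Vext → ∀ R : E3 → ℝ, Continuous R →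
  HasCompactSupport R → (∀ x, 0 ≤ R x) → ∀ lam : ℝ, FormLow (fun x => Vext x + R x) lam →
  ∀ ε : ℝ, 0 < ε → ∃ Λ : ℝ, 0 ≤ Λ ∧ FormLow (fun x => min (Vext x) Λ + R x) (lam - ε)

/-! ### the positive supersolution -/

def S_G : Prop := ∀ κ : ℝ, 0 < κ → ∃ G : (E3 → ℝ) → (E3 → ℝ), IsRes κ G

def S_FORM : Prop := ∀ Q : E3 → ℝ, Measurable Q → (∀ x, 0 ≤ Q x) → (∃ M : ℝ, ∀ x, Q x ≤ M) →
  ∀ lam : ℝ, FormLow Q lam → ∀ v : E3 → ℝ, ContDiff ℝ 1 v → Nice v →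
  Integrable (fun x => dot3 v v x) →
    lam * (∫ x, v x ^ 2) ≤ ∫ x, (dot3 v v x + Q x * v x ^ 2)

def S_JP : Prop := ∀ Q : E3 → ℝ, Measurable Q → (∀ x, 0 ≤ Q x) → (∃ M : ℝ, ∀ x, Q x ≤ M) →
  ∀ lam lam' : ℝ, lam' < lam → FormLow Q lam →
  ∃ φ : E3 → ℝ, ContDiff ℝ 1 φ ∧ (∀ x, 0 < φ x) ∧ SuperSol Q lam' φ

def S_FACT : Prop := ∀ Q : E3 → ℝ, Measurable Q → (∀ x, 0 ≤ Q x) → (∃ M : ℝ, ∀ x, Q x ≤ M) →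
  ∀ (lam' : ℝ) (φ : E3 → ℝ), ContDiff ℝ 1 φ → (∀ x, 0 < φ x) → SuperSol Q lam' φ →
  ∀ (N : ℕ) (ψ : Cfg N → ℂ), ContDiff ℝ 1 ψ → HasCompactSupport ψ →
    (N : ℝ) * lam' * (∫ x, ‖ψ x‖ ^ 2)
      + (∫ x, wt φ x * kin (fun y : Cfg N => ψ y / (((∏ i, φ (y i)) : ℝ) : ℂ)) x) ≤
    ∫ x, (kin ψ x + (∑ i, Q (x i)) * ‖ψ x‖ ^ 2)

def S_LOW : Prop := ∀ (Vext W : E3 → ℝ) (V : E3 × E3 → ℝ), AdmE Vext → AdmW W → AdmV V →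
  ∀ ε : ℝ, 0 < ε → ∀ᶠ N : ℕ in atTop, gpE Vext (b1 W) (b2 V) - ε ≤ EN N Vext W V / N

/-! ### the upper bound -/

def S_TR1 : Prop := ∀ W : E3 → ℝ, AdmW W → ∀ δ : ℝ, 0 < δ → ∃ (R : ℝ) (f : E3 → ℝ), 0 < R ∧
  PairF R f ∧ ∫ x, (2 * g3r f x + W x * f x ^ 2) ≤ b1 W + δ

def S_TR2 : Prop := ∀ V : E3 × E3 → ℝ, AdmV V → ∀ δ : ℝ, 0 < δ →
  ∃ (R : ℝ) (f : E3 × E3 → ℝ), 0 < R ∧ TripF R f ∧ ∫ p, (g6r f p + V p * f p ^ 2) ≤ b2 V + δ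

/-- decoupling -/
def S_IND : Prop := ∀ (N : ℕ) (v : Fin N → E3 → ℝ), (∀ i, Integrable (v i)) →
  (∀ i x, 0 ≤ v i x) →
  ∀ (S : Finset (Fin N)) (H K : Cfg N → ℝ), Measurable H → Measurable K →
  (∃ B : ℝ, ∀ x, |H x| ≤ B) → (∃ B : ℝ, ∀ x, |K x| ≤ B) →
  (∀ x y : Cfg N, (∀ i ∈ S, x i = y i) → H x = H y) →
  (∀ x y : Cfg N, (∀ i, i ∉ S → x i = y i) → K x = K y) →
  (∏ i, ∫ z, v i z) * (∫ x : Cfg N, (∏ i, v i (x i)) * (H x * K x)) =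
    (∫ x : Cfg N, (∏ i, v i (x i)) * H x) * ∫ x : Cfg N, (∏ i, v i (x i)) * K x

/-- one particle has the profile `h`, the others `|u|²` -/
def wh {N : ℕ} (h : E3 → ℝ) (u : E3 → ℂ) (m : Fin N) (x : Cfg N) : ℝ :=
  h (x m) * ∏ i ∈ Finset.univ.erase m, ‖u (x i)‖ ^ 2

/-- indicator of `|x_m - x_a| ≤ r` -/
def nr {N : ℕ} (r : ℝ) (m a : Fin N) (x : Cfg N) : ℝ := if ‖x m - x a‖ ≤ r then 1 else 0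

/-- nonnegative bounded measurable functions with compact support -/
structure NB {X : Type*} [NormedAddCommGroup X] [MeasurableSpace X] (h : X → ℝ) : Prop where
  meas : Measurable h
  nonneg : ∀ x, 0 ≤ h x
  bdd : ∃ M : ℝ, ∀ x, h x ≤ M
  supp : HasCompactSupport h

def S_CL : Prop := ∀ u : E3 → ℂ, Orb u → ∃ C : ℝ, 0 < C ∧
  ∀ (R1 R2 : ℝ) (f1 : E3 → ℝ) (f2 : E3 × E3 → ℝ), PairF R1 f1 → TripF R2 f2 →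
  ∀ h : E3 → ℝ, NB h → ∀ (N : ℕ) (m : Fin N) (S B : Finset (Fin N)), m ∉ S → m ∉ B →
  Disjoint S B → ∀ r : Fin N → ℝ, (∀ i, 0 ≤ r i) →
   ∫ x : Cfg N, wh h u m x * ((∏ a ∈ S, nr (r a) m a x) * (JA f1 f2 B x) ^ 2) ≤
     (∫ z, h z) * (∏ a ∈ S, C * r a ^ 3) * ZA f1 f2 u B

/-- elementary properties of the Jastrow factors -/
def S_JAB : Prop := ∀ (R1 R2 : ℝ) (f1 : E3 → ℝ) (f2 : E3 × E3 → ℝ), PairF R1 f1 → TripF R2 f2 →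
  ∀ N : ℕ,
  (∀ A : Finset (Fin N), ContDiff ℝ ((⊤ : ℕ∞) : WithTop ℕ∞) (JA f1 f2 A)) ∧
  (∀ (A : Finset (Fin N)) (x : Cfg N), 0 ≤ JA f1 f2 A x ∧ JA f1 f2 A x ≤ 1) ∧
  (∀ A B : Finset (Fin N), B ⊆ A → ∀ x : Cfg N, JA f1 f2 A x ≤ JA f1 f2 B x) ∧
  (∀ (A : Finset (Fin N)) (x y : Cfg N), (∀ i ∈ A, x i = y i) → JA f1 f2 A x = JA f1 f2 A y) ∧
  (∀ (A : Finset (Fin N)) (i j : Fin N), i ∈ A → j ∈ A → i < j → ∀ x : Cfg N,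
    JA f1 f2 A x ≤ f1 ((N : ℝ) • (x i - x j)) * JA f1 f2 (A \ {i, j}) x) ∧
  (∀ (A : Finset (Fin N)) (i j k : Fin N), i ∈ A → j ∈ A → k ∈ A → i < j → j < k →
    ∀ x : Cfg N, JA f1 f2 A x ≤
      f2 (Real.sqrt N • (x i - x j, x i - x k)) * JA f1 f2 (A \ {i, j, k}) x) ∧
  (∀ (A : Finset (Fin N)) (i : Fin N), i ∈ A → ∀ x : Cfg N,
    (JA f1 f2 (A.erase i) x) ^ 2 * (1 - (∑ a ∈ A.erase i, nr (R1 / N) i a x)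
      - ∑ a ∈ A.erase i, ∑ b ∈ (A.erase i).erase a,
          nr (2 * R2 / Real.sqrt N) i a x * nr (2 * R2 / Real.sqrt N) a b x)
      ≤ (JA f1 f2 A x) ^ 2)

/-- removing a particle changes the norm very little -/
def S_Z : Prop := ∀ u : E3 → ℂ, Orb u → ∀ (R1 R2 : ℝ) (f1 : E3 → ℝ) (f2 : E3 × E3 → ℝ),
  0 < R1 → 0 < R2 → PairF R1 f1 → TripF R2 f2 → ∃ C : ℝ, 0 < C ∧ ∀ᶠ N : ℕ in atTop,
  ∀ (A : Finset (Fin N)) (i : Fin N), i ∈ A →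
    ZA f1 f2 u (A.erase i) ≤ (1 + C / N) * ZA f1 f2 u A

/-- radius of type `t`: `true` is `R / N`, `false` is `R / √N` -/
def rad (R : ℝ) (N : ℕ) (t : Bool) : ℝ := if t then R / N else R / Real.sqrt N

/-- error terms: sum over ordered tuples of distinct particles close to the particle `m` -/
def errT {N : ℕ} (f1 : E3 → ℝ) (f2 : E3 × E3 → ℝ) (R : ℝ) (q : ℕ) (t : Fin q → Bool)
    (m : Fin N) (x : Cfg N) : ℝ :=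
  ∑ a ∈ (Finset.univ : Finset (Fin q → Fin N)).filter
      (fun a => Function.Injective a ∧ ∀ l, a l ≠ m),
    (∏ l, nr (rad R N (t l)) m (a l) x)
      * (JA f1 f2 (Finset.univ \ insert m (Finset.univ.image a)) x) ^ 2

/-- the total error for the particle `m` -/
def errA {N : ℕ} (f1 : E3 → ℝ) (f2 : E3 × E3 → ℝ) (R : ℝ) (m : Fin N) (x : Cfg N) : ℝ :=
  (N : ℝ) * errT f1 f2 R 1 ![true] m x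
  + Real.sqrt N * errT f1 f2 R 2 ![false, false] m x
  + (N : ℝ) ^ 2 * errT f1 f2 R 2 ![true, true] m x
  + (N : ℝ) * Real.sqrt N * errT f1 f2 R 2 ![true, false] m x
  + (N : ℝ) * Real.sqrt N * errT f1 f2 R 3 ![true, false, false] m x
  + (N : ℝ) * errT f1 f2 R 3 ![false, false, false] m x
  + (N : ℝ) * errT f1 f2 R 4 ![false, false, false, false] m x

/-- pointwise bound for the kinetic energy of the trial function -/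
def S_PWK : Prop := ∀ u : E3 → ℂ, Orb u → ∀ (R1 R2 : ℝ) (f1 : E3 → ℝ) (f2 : E3 × E3 → ℝ),
  0 < R1 → 0 < R2 → PairF R1 f1 → TripF R2 f2 → ∃ C R : ℝ, 0 < C ∧ 0 < R ∧
  ∀ N : ℕ, 1 ≤ N → ∀ x : Cfg N,
    kin (Psi N f1 f2 u) x ≤
      (∑ m : Fin N, wh (g3 u) u m x * (JA f1 f2 (Finset.univ.erase m) x) ^ 2)
      + (∑ i : Fin N, ∑ j ∈ Finset.Ioi i, wu u x *
          ((N : ℝ) ^ 2 * (2 * g3r f1 ((N : ℝ) • (x i - x j)))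
            * (JA f1 f2 (Finset.univ \ {i, j}) x) ^ 2))
      + (∑ i : Fin N, ∑ j ∈ Finset.Ioi i, ∑ k ∈ Finset.Ioi j, wu u x *
          ((N : ℝ) * g6r f2 (Real.sqrt N • (x i - x j, x i - x k))
            * (JA f1 f2 (Finset.univ \ {i, j, k}) x) ^ 2))
      + C * ∑ m : Fin N, wh (fun z => g3 u z + ‖u z‖ ^ 2) u m x * errA f1 f2 R m x

/-- the errors are small -/
def S_ERR : Prop := ∀ u : E3 → ℂ, Orb u → ∀ (R1 R2 : ℝ) (f1 : E3 → ℝ) (f2 : E3 × E3 → ℝ),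
  0 < R1 → 0 < R2 → PairF R1 f1 → TripF R2 f2 → ∀ R : ℝ, 0 < R → ∃ C : ℝ, 0 < C ∧
  ∀ᶠ N : ℕ in atTop,
    (∑ m : Fin N, ∫ x : Cfg N, wh (fun z => g3 u z + ‖u z‖ ^ 2) u m x * errA f1 f2 R m x) ≤
      C * Real.sqrt N * ZA f1 f2 u (Finset.univ : Finset (Fin N))

def S_MASS2 : Prop := ∀ u : E3 → ℂ, Orb u → ∀ (R1 R2 : ℝ) (f1 : E3 → ℝ) (f2 : E3 × E3 → ℝ),
  PairF R1 f1 → TripF R2 f2 → ∀ q : E3 → ℝ, NB q → ∀ ε : ℝ, 0 < ε → ∀ᶠ N : ℕ in atTop,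
  ∀ i j : Fin N, i ≠ j →
    ∫ x : Cfg N, wu u x * ((N : ℝ) ^ 2 * q ((N : ℝ) • (x i - x j))
        * (JA f1 f2 (Finset.univ \ {i, j}) x) ^ 2) ≤
      1 / (N : ℝ) * ((∫ z, q z) * (∫ z, ‖u z‖ ^ 4) + ε) * ZA f1 f2 u (Finset.univ \ {i, j})

def S_MASS3 : Prop := ∀ u : E3 → ℂ, Orb u → ∀ (R1 R2 : ℝ) (f1 : E3 → ℝ) (f2 : E3 × E3 → ℝ),
  PairF R1 f1 → TripF R2 f2 → ∀ q : E3 × E3 → ℝ, NB q → ∀ ε : ℝ, 0 < ε → ∀ᶠ N : ℕ in atTop,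
  ∀ i j k : Fin N, i ≠ j → i ≠ k → j ≠ k →
    ∫ x : Cfg N, wu u x * ((N : ℝ) * q (Real.sqrt N • (x i - x j, x i - x k))
        * (JA f1 f2 (Finset.univ \ {i, j, k}) x) ^ 2) ≤
      1 / (N : ℝ) ^ 2 * ((∫ p, q p) * (∫ z, ‖u z‖ ^ 6) + ε)
        * ZA f1 f2 u (Finset.univ \ {i, j, k})

def S_SYM : Prop := ∀ u : E3 → ℂ, Orb u → ∀ (R1 R2 : ℝ) (f1 : E3 → ℝ) (f2 : E3 × E3 → ℝ),
  PairF R1 f1 → TripF R2 f2 → ∀ N : ℕ,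
    ContDiff ℝ ((⊤ : ℕ∞) : WithTop ℕ∞) (Psi N f1 f2 u) ∧ HasCompactSupport (Psi N f1 f2 u) ∧
    (∀ (σ : Equiv.Perm (Fin N)) (x : Cfg N), Psi N f1 f2 u (x ∘ σ) = Psi N f1 f2 u x) ∧
    (∀ x : Cfg N, ‖Psi N f1 f2 u x‖ ^ 2 = wu u x * (JA f1 f2 Finset.univ x) ^ 2)

/-- energy of the trial function -/
def S_UEN : Prop := ∀ (Vext W : E3 → ℝ) (V : E3 × E3 → ℝ), AdmE Vext → AdmW W → AdmV V →
  ∀ u : E3 → ℂ, Orb u → ∀ (R1 R2 : ℝ) (f1 : E3 → ℝ) (f2 : E3 × E3 → ℝ),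
  0 < R1 → 0 < R2 → PairF R1 f1 → TripF R2 f2 → ∃ C : ℝ, 0 < C ∧ ∀ᶠ N : ℕ in atTop,
    enN N Vext W V (Psi N f1 f2 u) ≤
      (∑ m : Fin N, ∫ x : Cfg N, wh (fun z => g3 u z + Vext z * ‖u z‖ ^ 2) u m x
        * (JA f1 f2 (Finset.univ.erase m) x) ^ 2)
      + (∑ i : Fin N, ∑ j ∈ Finset.Ioi i, ∫ x : Cfg N, wu u x *
          ((N : ℝ) ^ 2 * (2 * g3r f1 ((N : ℝ) • (x i - x j))
              + W ((N : ℝ) • (x i - x j)) * f1 ((N : ℝ) • (x i - x j)) ^ 2)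
            * (JA f1 f2 (Finset.univ \ {i, j}) x) ^ 2))
      + (∑ i : Fin N, ∑ j ∈ Finset.Ioi i, ∑ k ∈ Finset.Ioi j, ∫ x : Cfg N, wu u x *
          ((N : ℝ) * (g6r f2 (Real.sqrt N • (x i - x j, x i - x k))
              + V (Real.sqrt N • (x i - x j, x i - x k))
                * f2 (Real.sqrt N • (x i - x j, x i - x k)) ^ 2)
            * (JA f1 f2 (Finset.univ \ {i, j, k}) x) ^ 2))
      + C * Real.sqrt N * ZA f1 f2 u (Finset.univ : Finset (Fin N))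

def S_UP : Prop := ∀ (Vext W : E3 → ℝ) (V : E3 × E3 → ℝ), AdmE Vext → AdmW W → AdmV V →
  ∀ ε : ℝ, 0 < ε → ∀ᶠ N : ℕ in atTop, EN N Vext W V / N ≤ gpE Vext (b1 W) (b2 V) + ε

/-! ### changes of variables -/

/-- centre of mass in the slot `i`, relative coordinate in the slot `j` -/
def T2 {n : ℕ} (i j : Fin n) (x : Cfg n) : Cfg n :=
  Function.update (Function.update x i (x i + (1 / 2 : ℝ) • x j)) j (x i - (1 / 2 : ℝ) • x j)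

/-- centre of mass in the slot `i`, relative coordinates in the slots `j`, `k` -/
def T3 {n : ℕ} (i j k : Fin n) (x : Cfg n) : Cfg n :=
  Function.update (Function.update (Function.update x i (x i + (1 / 3 : ℝ) • (x j + x k)))
    j (x i + (1 / 3 : ℝ) • (x k - (2 : ℝ) • x j))) k (x i + (1 / 3 : ℝ) • (x j - (2 : ℝ) • x k))

def S_COV : Prop := ∀ n : ℕ,
  (∀ i j : Fin n, i ≠ j → MeasurePreserving (T2 (n := n) i j) volume volume ∧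
    Function.Injective (T2 (n := n) i j)) ∧
  ∀ i j k : Fin n, i ≠ j → i ≠ k → j ≠ k →
    MeasurePreserving (T3 (n := n) i j k) volume volume ∧ Function.Injective (T3 (n := n) i j k)

/-- unit cube -/
def Q1 : Set E3 := {z | ∀ a, z a ∈ Set.Ico (0 : ℝ) 1}

/-- Fubini with a free variable in the unit cube -/
def S_FUB : Prop := ∀ (n : ℕ) (f : Cfg n → ℝ), Integrable f →
  (∀ j : Fin n,
    (∀ᵐ x : Cfg n, Integrable (fun y : E3 => f (Function.update x j y))) ∧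
    IntegrableOn (fun x : Cfg n => ∫ y : E3, f (Function.update x j y)) {x | x j ∈ Q1} ∧
    ∫ x, f x = ∫ x in {x : Cfg n | x j ∈ Q1}, ∫ y : E3, f (Function.update x j y)) ∧
  (∀ j k : Fin n, j ≠ k →
    (∀ᵐ x : Cfg n, Integrable (fun p : E3 × E3 =>
      f (Function.update (Function.update x j p.1) k p.2))) ∧
    IntegrableOn (fun x : Cfg n => ∫ p : E3 × E3,
      f (Function.update (Function.update x j p.1) k p.2)) {x | x j ∈ Q1 ∧ x k ∈ Q1} ∧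
    ∫ x, f x = ∫ x in {x : Cfg n | x j ∈ Q1 ∧ x k ∈ Q1}, ∫ p : E3 × E3,
      f (Function.update (Function.update x j p.1) k p.2))

/-- Hardy's inequality -/
def S_HARDY : Prop := ∀ v : E3 → ℂ, ContDiff ℝ 1 v → HasCompactSupport v →
  Integrable (fun x => ‖v x‖ ^ 2 / ‖x‖ ^ 2) ∧ ∫ x, ‖v x‖ ^ 2 / ‖x‖ ^ 2 ≤ 4 * ∫ x, g3 v x

/-! ### kernel of the resolvent -/

/-- fundamental solution data -/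
structure Kern (κ : ℝ) (K : E3 → ℝ) (D : Fin 3 → E3 → ℝ) : Prop where
  mK : Measurable K
  mD : ∀ k, Measurable (D k)
  nonneg : ∀ z, 0 ≤ K z
  pos : ∀ z, z ≠ 0 → 0 < K z
  intK : Integrable K
  sqK : Integrable (fun z => K z ^ 2)
  intD : ∀ k, Integrable (D k)
  even : ∀ z, K (-z) = K z
  odd : ∀ k z, D k (-z) = - D k z
  grad : ∀ η : E3 → ℝ, ContDiff ℝ 1 η → HasCompactSupport η → ∀ k : Fin 3,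
    ∫ z, K z * fderiv ℝ η z (EuclideanSpace.single k (1 : ℝ)) = - ∫ z, D k z * η z
  fund : ∀ η : E3 → ℝ, ContDiff ℝ 1 η → HasCompactSupport η →
    ∫ z, ((∑ k : Fin 3, D k z * fderiv ℝ η z (EuclideanSpace.single k (1 : ℝ))) + κ * K z * η z)
      = η 0

/-- convolution -/
def cv3 (k h : E3 → ℝ) (x : E3) : ℝ := ∫ y, k (x - y) * h y

def S_KERN : Prop := ∀ κ : ℝ, 0 < κ → ∃ (K : E3 → ℝ) (D : Fin 3 → E3 → ℝ), Kern κ K D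

def S_KC1 : Prop := ∀ (κ : ℝ) (K : E3 → ℝ) (D : Fin 3 → E3 → ℝ), 0 < κ → Kern κ K D →
  ∀ h : E3 → ℝ, Measurable h → (∃ B : ℝ, ∀ x, |h x| ≤ B) →
    ContDiff ℝ 1 (cv3 K h) ∧
    ∀ x k, fderiv ℝ (cv3 K h) x (EuclideanSpace.single k (1 : ℝ)) = cv3 (D k) h x

def S_Y2 : Prop := ∀ k h : E3 → ℝ, Measurable k → Integrable k → Nice h → Nice (cv3 k h)

/-- smooth clamp -/
def S_CLAMP : Prop := ∀ ε : ℝ, 0 < ε → ∃ T : ℝ → ℝ, ContDiff ℝ ((⊤ : ℕ∞) : WithTop ℕ∞) T ∧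
  (∀ s, 0 ≤ T s ∧ T s ≤ 1) ∧ (∀ s, |deriv T s| ≤ 1 + ε) ∧ (∀ s, T s ^ 2 ≤ s ^ 2 + ε) ∧
  ∀ s, 1 ≤ s → T s = 1

end Pool.Agent.W734.TWB
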